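import Pool.Agent.H76.ADV.Targets
import Pool.Agent.H8.JS.All

/-!
# NE with advice (MP_64fb07_lc), rows B1, B2, B3: from languages to sets of numbers
-/

set_option autoImplicit false

namespace Pool.Agent.H69.ADV

open Pool.Agent.H8.JS Pool.Agent.H69.Sp Pool.Agent.H76.ADV

private theorem num_pos (x : List Bool) : 0 < num x :=
  lt_of_lt_of_le (by positivity) (j_nu.2.2.1 x).1

private theorem num_inj : Function.Injective num := fun x y h => j_nu.2.2.2.1 x y h

private theorem num_sur (m : ℕ) (h : 0 < m) : ∃ x, num x = m := j_nu.2.2.2.2 m h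

private theorem num_log (x : List Bool) : Nat.log 2 (num x) = x.length := by
  obtain ⟨h1, h2⟩ := j_nu.2.2.1 x
  exact Nat.log_eq_of_pow_le_of_lt_pow h1 h2

private theorem mem_im (L : Set (List Bool)) (x : List Bool) : num x ∈ num '' L ↔ x ∈ L :=
  num_inj.mem_set_image

private theorem pair_pos (a x : ℕ) (h : 0 < x) : 0 < Nat.pair a x :=
  lt_of_lt_of_le h (Nat.right_le_pair a x)

/-- from languages to sets of numbers -/
theorem pf_B1 : T_B1 := by
  intro A L
  constructor
  · rintro ⟨X, hX, α, hα, h⟩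
    refine ⟨num '' (lang X), (j_js.1 _).mp hX, α, hα, fun x hx => ?_⟩
    obtain ⟨w, rfl⟩ := num_sur x hx
    rw [mem_im, h w, num_log]
    obtain ⟨u, hu⟩ := num_sur _ (pair_pos (α w.length) (num w) (num_pos w))
    rw [← hu, mem_im]
    exact Iff.rfl
  · rintro ⟨X, hX, α, hα, h⟩
    refine ⟨X, j_jb X hX, α, hα, fun w => ?_⟩
    rw [← mem_im L w, h _ (num_pos w), num_log]

/-- complements -/
theorem pf_B2 (h : T_B1) : T_B2 := by
  intro A
  constructor
  · intro hc S hS
    have h1 : lang (posCompl S) ∈ coNE := by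
      show (lang (posCompl S))ᶜ ∈ NE
      have h2 : (lang (posCompl S))ᶜ = lang S := by
        ext x
        show ¬ (0 < num x ∧ num x ∉ S) ↔ num x ∈ S
        constructor
        · intro h3
          by_contra h4
          exact h3 ⟨num_pos x, h4⟩
        · intro h3 h4
          exact h4.2 h3
      rw [h2]
      exact j_jb S hS
    have h3 := (h A _).mp (hc h1)
    have h4 : num '' lang (posCompl S) = posCompl S := by
      ext m
      constructor
      · rintro ⟨x, hx, rfl⟩
        exact hx
      · intro hm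
        obtain ⟨x, rfl⟩ := num_sur m hm.1
        exact ⟨x, hm, rfl⟩
    rwa [h4] at h3
  · intro hc L hL
    rw [h A L]
    have h1 : IsSpectrum (num '' Lᶜ) := (j_js.1 _).mp hL
    have h2 : num '' L = posCompl (num '' Lᶜ) := by
      ext m
      constructor
      · rintro ⟨x, hx, rfl⟩
        refine ⟨num_pos x, ?_⟩
        rw [mem_im]
        exact fun h3 => h3 hx
      · rintro ⟨hm, hn⟩
        obtain ⟨x, rfl⟩ := num_sur m hm
        rw [mem_im] at hn ⊢
        by_contra h3
        exact hn h3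
    rw [h2]
    exact hc _ h1

/-- errors -/
theorem pf_B3 : T_B3 := by
  intro B L n
  unfold err er
  rw [← Set.ncard_image_of_injective _ num_inj]
  congr 1
  ext m
  constructor
  · rintro ⟨x, ⟨hx, hd⟩, rfl⟩
    obtain ⟨h1, h2⟩ := j_nu.2.2.1 x
    rw [hx] at h1 h2
    refine ⟨⟨h1, h2⟩, ?_⟩
    rwa [mem_im, mem_im]
  · rintro ⟨⟨h1, h2⟩, hd⟩
    obtain ⟨x, rfl⟩ := num_sur m (lt_of_lt_of_le (by positivity) h1)
    refine ⟨x, ⟨?_, ?_⟩, rfl⟩
    · rw [← num_log x]
      exact Nat.log_eq_of_pow_le_of_lt_pow h1 h2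
    · rwa [mem_im, mem_im] at hd

end Pool.Agent.H69.ADV
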