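import Pool.Agent.H76.ADV.Targets2

/-!
# NE with advice and the difference hierarchy over NE (MP_64fb07_lc), row DA: the sharp level
-/

set_option autoImplicit false

namespace Pool.Agent.H69.ADV

open Pool.Agent.H69.Sp Pool.Agent.H69.Mt Pool.Agent.H8.JS Pool.Agent.H76.ADV Classical

/-- the certificate for the parity -/
private def cf (B Y : Set ℕ) (c a j x : ℕ) : Prop :=
  ∃ i, i < (2 ^ Nat.log 2 x) ^ c + 1 ∧ ((i + j) % 2 = 1 ∧
    (i = 0 ∨ Nat.pair (i - 1) x ∈ B) ∧ (i = (2 ^ Nat.log 2 x) ^ c ∨
      Nat.pair a (PP c x + Nat.pair i x) ∈ Y))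

private theorem RL_cf {B Y : Set ℕ} (c : ℕ) (hB : IsSpectrum B) (hY : IsSpectrum Y) {f g h : ℕ → ℕ}
    (hf : GR f) (hg : GR g) (hh : GR h) : RL (fun u => cf B Y c (f u) (g u) (h u)) := by
  have h : RL (fun v => cf B Y c (Nat.unpair (Nat.unpair v).1).1
      (Nat.unpair (Nat.unpair v).1).2 (Nat.unpair v).2) := by
    refine RL.ex (R := fun i v => (i + (Nat.unpair (Nat.unpair v).1).2) % 2 = 1 ∧
      (i = 0 ∨ Nat.pair (i - 1) (Nat.unpair v).2 ∈ B) ∧
      (i = (2 ^ Nat.log 2 (Nat.unpair v).2) ^ c ∨
        Nat.pair (Nat.unpair (Nat.unpair v).1).1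
          (PP c (Nat.unpair v).2 + Nat.pair i (Nat.unpair v).2) ∈ Y)) ?_
      ((GR.id.snd.powlog.npow c).add (GR.num 1))
    refine (RL.eq ((GR.id.fst.add GR.id.snd.fst.snd).mod (GR.num 2)) (GR.num 1)).and
      (RL.and (RL.or ?_ ?_) (RL.or ?_ ?_))
    · exact RL.eq GR.id.fst (GR.num 0)
    · exact RL.mem hB ((GR.id.fst.sub (GR.num 1)).pair GR.id.snd.snd)
    · exact RL.eq GR.id.fst (GR.id.snd.snd.powlog.npow c)
    · exact RL.mem hY (GR.id.snd.fst.fst.pair ((GR.PP c GR.id.snd.snd).add
        (GR.id.fst.pair GR.id.snd.snd)))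
  exact (h.comp ((hf.pair hg).pair hh)).congr fun u => by simp

theorem pf_DA : T_DA := by
  intro A hA hCA c A' n₀ hA' hAA T hT
  obtain ⟨B, hB, hd, hBT⟩ := hT
  have hB0 : 0 ∉ B := spec_zero hB
  have hQ : IsSpectrum {z | 0 < z ∧ z - 2 ^ Nat.log 2 z ∈ B} :=
    RL.isSpectrum (RL.mem hB (GR.id.sub GR.id.powlog))
  obtain ⟨Y, hY, α, hα, hα2⟩ := hCA _ hQ
  set M₀ := 2 ^ n₀ with hM₀
  refine ⟨{u | 0 < u ∧ (((Nat.unpair u).1 = 0 ∧ (Nat.unpair u).2 ∈ {x | 0 < x ∧ (x < M₀ ∧ x ∈ T)}) ∨
    (M₀ ≤ (Nat.unpair u).2 ∧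
      ((∃ a, a < A (Nat.log 2 (PP c (Nat.unpair u).2)) ∧
        (cf B Y c a (Nat.unpair u).1 (Nat.unpair u).2 ∧
          oth A B Y c (Nat.unpair u).1 a (Nat.unpair u).2)) ∨
        th A B Y c ((Nat.unpair u).1 + 1) (Nat.unpair u).2)))}, ?_, ?_, ?_⟩
  · refine RL.isSpectrum (RL.or ((RL.eq GR.id.fst (GR.num 0)).and
      (RL.mem (fin_isSpectrum _ _) GR.id.snd)) ((RL.le (GR.num _) GR.id.snd).and
      (RL.or ?_ (RL.th hA c hB hY (GR.id.fst.add (GR.num 1)) GR.id.snd))))
    exact RL.ex (R := fun a u => cf B Y c a (Nat.unpair u).1 (Nat.unpair u).2 ∧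
      oth A B Y c (Nat.unpair u).1 a (Nat.unpair u).2)
      ((RL_cf c hB hY GR.id.fst GR.id.snd.fst GR.id.snd.snd).and (RL.oth hA c hB hY
        GR.id.snd.fst GR.id.fst GR.id.snd.snd)) (GR.w hA (GR.PP c GR.id.snd))
  · intro x j hx
    simp only [Set.mem_ofPred_eq, Nat.unpair_pair, pair_pos hx, true_and]
    rintro (⟨h1, _⟩ | ⟨h1, ⟨a, _, _, h4⟩ | h4⟩)
    · omega
    · right
      refine ⟨h1, Or.inr ?_⟩
      exact le_trans h4 (Set.ncard_le_ncard (fun a' h => ⟨h.1, h.2.2⟩)
        ((Set.finite_Iio _).subset fun t ht => ht.1))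
    · right
      exact ⟨h1, Or.inr (le_trans (Nat.le_succ _) h4)⟩
  · intro x hx
    set n := Nat.log 2 x with hn
    simp only [Set.mem_ofPred_eq, Nat.unpair_pair, pair_pos hx, true_and]
    rcases Nat.lt_or_ge x M₀ with hxM | hxM
    · by_cases hxT : x ∈ T
      · have : {j | j < A' n ∧ (j = 0 ∧ 0 < x ∧ x < M₀ ∧ x ∈ T ∨ M₀ ≤ x ∧
            ((∃ a, a < A (Nat.log 2 (PP c x)) ∧ cf B Y c a j x ∧ oth A B Y c j a x) ∨
              th A B Y c (j + 1) x))} = {0} := by
          ext j
          constructor
          · rintro ⟨_, ⟨h1, _⟩ | ⟨h1, _⟩⟩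
            · exact h1
            · omega
          · intro h1
            have h1' : j = 0 := h1
            exact ⟨by rw [h1']; exact hA' n, Or.inl ⟨h1', hx, hxM, hxT⟩⟩
        rw [this, Set.ncard_singleton]
        simp [hxT]
      · have : {j | j < A' n ∧ (j = 0 ∧ 0 < x ∧ x < M₀ ∧ x ∈ T ∨ M₀ ≤ x ∧
            ((∃ a, a < A (Nat.log 2 (PP c x)) ∧ cf B Y c a j x ∧ oth A B Y c j a x) ∨
              th A B Y c (j + 1) x))} = ∅ := by
          ext j
          simp only [Set.mem_empty_iff_false, iff_false]
          rintro ⟨_, ⟨_, _, _, h1⟩ | ⟨h1, _⟩⟩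
          · exact hxT h1
          · omega
        rw [this, Set.ncard_empty]
        simp [hxT]
    · have hlog : n₀ ≤ n := (Nat.le_log_iff_pow_le (by norm_num) hx.ne').2 hxM
      have hlP : Nat.log 2 (PP c x) = (2 * c + 4) * (n + 1) := by
        rw [PP_eq, Nat.log_pow (by norm_num)]
      have hPpos : 0 < PP c x := by rw [PP_eq]; exact Nat.two_pow_pos _
      set m := (2 * c + 4) * (n + 1) with hm
      rw [hlP]
      have hR : (2 ^ n) ^ c = 2 ^ (c * n) := by rw [← pow_mul, mul_comm]
      have hT1 := hBT x hx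
      set NN := Set.ncard {j | j < 2 ^ (c * n) ∧ Nat.pair j x ∈ B} with hNN
      have hNR : NN ≤ 2 ^ (c * n) := by
        have h1 : {j | j < 2 ^ (c * n) ∧ Nat.pair j x ∈ B} ⊆
            ((Finset.range (2 ^ (c * n)) : Finset ℕ) : Set ℕ) := fun i hi => by simpa using hi.1
        have h2 := Set.ncard_le_ncard h1 (Finset.finite_toSet _)
        rwa [Set.ncard_coe_finset, Finset.card_range] at h2
      have hch : ∀ j < 2 ^ (c * n), (Nat.pair j x ∈ B ↔ j < NN) := fun j hj =>
        chain_iff hd hx (2 ^ (c * n)) j hj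
      -- membership in the padded set
      have hz : ∀ w < PP c x, Nat.log 2 (PP c x + w) = m := by
        intro w hw
        rw [PP_eq] at hw ⊢
        exact log_code hw
      have hQw : ∀ w < PP c x, (w ∉ B ↔ Nat.pair (α m) (PP c x + w) ∈ Y) := by
        intro w hw
        have h1 := hα2 (PP c x + w) (by omega)
        rw [hz w hw] at h1
        rw [← h1]
        have h2 : PP c x + w - 2 ^ Nat.log 2 (PP c x + w) = w := by
          rw [hz w hw, hm, hn, ← PP_eq]
          omega
        constructor
        · intro h3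
          refine ⟨by omega, fun h4 => h3 ?_⟩
          have := h4.2
          rwa [h2] at this
        · intro h3 h4
          exact h3.2 ⟨by omega, by rw [h2]; exact h4⟩
      have hfin : {a | a < A m ∧ un B Y c a x}.Finite := (Set.finite_Iio _).subset fun t ht => ht.1
      have hKn : Set.ncard {a | a < A (Nat.log 2 (PP c x)) ∧ un B Y c a x} =
        Set.ncard {a | a < A m ∧ un B Y c a x} := by rw [hlP]
      set K := Set.ncard {a | a < A m ∧ un B Y c a x} with hK
      have hth : ∀ k, th A B Y c k x ↔ k ≤ K := by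
        intro k
        unfold th
        rw [hKn]
      -- the right advice is sound
      have hsound : ¬ un B Y c (α m) x := by
        rintro ⟨w, hw, h1, h2⟩
        exact (hQw w hw).2 h2 h1
      have hKA : K < A m := by
        have h1 : {a | a < A m ∧ un B Y c a x} ⊂ ((Finset.range (A m) : Finset ℕ) : Set ℕ) := by
          refine ⟨fun a ha => by simpa using ha.1, fun h2 => ?_⟩
          exact hsound (h2 (by simpa using hα m)).2
        have h2 := Set.ncard_lt_ncard h1 (Finset.finite_toSet _)
        rwa [Set.ncard_coe_finset, Finset.card_range] at h2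
      have key : (∃ a, a < A m ∧ (cf B Y c a K x ∧ oth A B Y c K a x)) ↔ (NN + K) % 2 = 1 := by
        constructor
        · rintro ⟨a, ha, ⟨i, hi, hi2, h1, h2⟩, h3⟩
          rw [← hn, hR] at hi h2
          have ha2 : ¬ un B Y c a x := by
            intro h4
            unfold oth at h3
            rw [hlP] at h3
            have h5 : {a' | a' < A m ∧ (a' ≠ a ∧ un B Y c a' x)} ⊂
                {a | a < A m ∧ un B Y c a x} := by
              refine ⟨fun a' h => ⟨h.1, h.2.2⟩, fun h6 => ?_⟩
              exact (h6 ⟨ha, h4⟩).2.1 rfl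
            have h6 := Set.ncard_lt_ncard h5 hfin
            omega
          have h4 : i ≤ NN := by
            rcases h1 with h1 | h1
            · omega
            · rcases Nat.eq_zero_or_pos i with h5 | h5
              · omega
              · have := (hch (i - 1) (by omega)).1 h1
                omega
          have h5 : NN = i := by
            rcases h2 with h2 | h2
            · omega
            · rcases Nat.lt_or_ge i (2 ^ (c * n)) with h6 | h6
              · by_contra h7
                have h8 := (hch i h6).2 (by omega)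
                exact ha2 ⟨_, pair_lt_PP c hx (by rw [← hn, hR]; exact h6.le), h8, h2⟩
              · omega
          rw [h5]
          exact hi2
        · intro hev
          refine ⟨α m, hα m, ⟨NN, by rw [← hn, hR]; omega, hev, ?_, ?_⟩, ?_⟩
          · rcases Nat.eq_zero_or_pos NN with h5 | h5
            · exact Or.inl h5
            · exact Or.inr ((hch (NN - 1) (by omega)).2 (by omega))
          · rw [← hn, hR]
            rcases Nat.lt_or_ge NN (2 ^ (c * n)) with h6 | h6
            · right
              refine (hQw _ (pair_lt_PP c hx (by rw [← hn, hR]; exact h6.le))).1 fun h7 => ?_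
              have := (hch _ h6).1 h7
              omega
            · left
              omega
          · unfold oth
            rw [hlP]
            have h5 : {a' | a' < A m ∧ (a' ≠ α m ∧ un B Y c a' x)} =
                {a | a < A m ∧ un B Y c a x} := by
              ext a'
              constructor
              · rintro ⟨h, _, h'⟩
                exact ⟨h, h'⟩
              · rintro ⟨h, h'⟩
                exact ⟨h, fun h6 => hsound (h6 ▸ h'), h'⟩
            rw [h5]
      have hA2 : A m ≤ A' n := hAA n hlog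
      have hset : {j | j < A' n ∧ (j = 0 ∧ 0 < x ∧ x < M₀ ∧ x ∈ T ∨ M₀ ≤ x ∧
            ((∃ a, a < A m ∧ cf B Y c a j x ∧ oth A B Y c j a x) ∨
                th A B Y c (j + 1) x))} =
          ((Finset.range (K + (NN + K) % 2) : Finset ℕ) : Set ℕ) := by
        ext j
        simp only [Set.mem_ofPred_eq, Finset.coe_range, Set.mem_Iio, hth]
        have hto : ∀ k a, oth A B Y c k a x → k ≤ K := fun k a h =>
          le_trans h (by
            rw [← hKn]
            exact Set.ncard_le_ncard (fun a' h => ⟨h.1, h.2.2⟩)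
              ((Set.finite_Iio _).subset fun t ht => ht.1))
        constructor
        · rintro ⟨_, ⟨_, _, h1, _⟩ | ⟨_, ⟨a, ha, h2, h3⟩ | h2⟩⟩
          · omega
          · have h4 := hto _ _ h3
            rcases Nat.lt_or_ge j K with h5 | h5
            · omega
            · have h6 : j = K := by omega
              rw [h6] at h3 h2
              have h7 := key.1 ⟨a, ha, h2, h3⟩
              omega
          · omega
        · intro h1
          refine ⟨by omega, Or.inr ⟨hxM, ?_⟩⟩
          rcases Nat.lt_or_ge j K with h5 | h5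
          · right
            omega
          · left
            have h6 : j = K := by omega
            have h7 : (NN + K) % 2 = 1 := by omega
            rw [h6]
            obtain ⟨a, ha, h8, h9⟩ := key.2 h7
            exact ⟨a, ha, h8, h9⟩
      rw [hset, Set.ncard_coe_finset, Finset.card_range, hT1, Nat.odd_iff, Nat.odd_iff]
      omega

end Pool.Agent.H69.ADV
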